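import Mathlib

set_option autoImplicit false

namespace Pool.Agent.Results.MP_37c1b2_nt.ExactDensity

open Filter Topology Finset

/-! ### Counting integers with even 3-adic valuation -/

/-- The counting function of the positive integers `n ≤ N` with `v_3(n)` even. -/
def evCount (N : ℕ) : ℕ := ((Finset.Icc 1 N).filter (fun n => Even (padicValNat 3 n))).card

lemma val_three_mul (m : ℕ) (hm : 0 < m) : padicValNat 3 (3 * m) = padicValNat 3 m + 1 := by
  have : Fact (Nat.Prime 3) := ⟨Nat.prime_three⟩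
  rw [padicValNat.mul (by norm_num) hm.ne', padicValNat.self (by norm_num)]
  ring

lemma val_two_mul (m : ℕ) (hm : 0 < m) : padicValNat 3 (2 * m) = padicValNat 3 m := by
  have : Fact (Nat.Prime 3) := ⟨Nat.prime_three⟩
  rw [padicValNat.mul (by norm_num) hm.ne']
  have : padicValNat 3 2 = 0 := by
    apply padicValNat.eq_zero_of_not_dvd; norm_num
  omega

lemma three_dvd_of_odd (n : ℕ) (h : ¬ Even (padicValNat 3 n)) : 3 ∣ n := by
  by_contra hn
  apply h
  rw [padicValNat.eq_zero_of_not_dvd hn]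
  exact Even.zero

/-- `e(N) + e(N/3) = N`. -/
lemma evCount_add (N : ℕ) : evCount N + evCount (N / 3) = N := by
  have h1 : ((Finset.Icc 1 N).filter (fun n => ¬ Even (padicValNat 3 n))).card
      = evCount (N / 3) := by
    unfold evCount
    symm
    apply Finset.card_bij (fun m _ => 3 * m)
    · intro m hm
      simp only [Finset.mem_filter, Finset.mem_Icc] at hm ⊢
      obtain ⟨⟨h1, h2⟩, h3⟩ := hm
      refine ⟨⟨by omega, by omega⟩, ?_⟩
      rw [val_three_mul m (by omega), Nat.not_even_iff_odd]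
      exact h3.add_one
    · intro a _ b _ h
      simpa using h
    · intro n hn
      simp only [Finset.mem_filter, Finset.mem_Icc] at hn
      obtain ⟨⟨h1, h2⟩, h3⟩ := hn
      obtain ⟨m, rfl⟩ := three_dvd_of_odd n h3
      refine ⟨m, ?_, rfl⟩
      simp only [Finset.mem_filter, Finset.mem_Icc]
      refine ⟨⟨by omega, by omega⟩, ?_⟩
      rw [val_three_mul m (by omega), Nat.not_even_iff_odd] at h3
      by_contra hc
      rw [Nat.not_even_iff_odd] at hc
      exact (Nat.not_even_iff_odd.mpr h3) hc.add_one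
  have h2 := Finset.card_filter_add_card_filter_not (s := Finset.Icc 1 N)
    (fun n => Even (padicValNat 3 n))
  rw [h1] at h2
  simpa [evCount] using h2

lemma evCount_err (N : ℕ) : |(evCount N : ℝ) - 3 / 4 * N| ≤ 2 * Real.sqrt N := by
  induction N using Nat.strong_induction_on with
  | _ N ih =>
    rcases Nat.eq_zero_or_pos N with h0 | hpos
    · subst h0
      simp [evCount]
    · have hlt : N / 3 < N := Nat.div_lt_self hpos (by norm_num)
      have h1 := ih (N / 3) hlt
      have h2 : (evCount N : ℝ) + evCount (N / 3) = N := by exact_mod_cast evCount_add N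
      have h3 : ((N / 3 : ℕ) : ℝ) ≤ (N : ℝ) / 3 := Nat.cast_div_le
      have h4 : (N : ℝ) / 3 - 2 / 3 ≤ ((N / 3 : ℕ) : ℝ) := by
        have : N ≤ 3 * (N / 3) + 2 := by omega
        have : (N : ℝ) ≤ 3 * ((N / 3 : ℕ) : ℝ) + 2 := by exact_mod_cast this
        linarith
      have h5 : Real.sqrt ((N / 3 : ℕ) : ℝ) ≤ Real.sqrt N * (3 / 5) := by
        have : ((N / 3 : ℕ) : ℝ) ≤ (Real.sqrt N * (3 / 5)) ^ 2 := by
          rw [mul_pow, Real.sq_sqrt (by positivity)]
          have : (0 : ℝ) ≤ N := by positivity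
          nlinarith
        calc Real.sqrt ((N / 3 : ℕ) : ℝ) ≤ Real.sqrt ((Real.sqrt N * (3 / 5)) ^ 2) :=
              Real.sqrt_le_sqrt this
          _ = Real.sqrt N * (3 / 5) := Real.sqrt_sq (by positivity)
      have h6 : (1 : ℝ) ≤ Real.sqrt N := by
        rw [Real.one_le_sqrt]
        exact_mod_cast hpos
      rw [abs_le] at h1 ⊢
      constructor <;> linarith [h1.1, h1.2]

/-! ### Harmonic sums -/

/-- `H_N`. -/
noncomputable def H (N : ℕ) : ℝ := ∑ n ∈ Finset.Icc 1 N, (1 : ℝ) / n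

/-- Harmonic sum over `n ≤ N` with `v_3(n)` even. -/
noncomputable def E (N : ℕ) : ℝ :=
  ∑ n ∈ (Finset.Icc 1 N).filter (fun n => Even (padicValNat 3 n)), (1 : ℝ) / n

lemma H_le_E (N : ℕ) : 3 / 4 * H N ≤ E N := by
  have h1 : ∑ n ∈ (Finset.Icc 1 N).filter (fun n => ¬ Even (padicValNat 3 n)), (1 : ℝ) / (n : ℝ)
      ≤ E N / 3 := by
    have h2 : ∑ n ∈ (Finset.Icc 1 N).filter (fun n => ¬ Even (padicValNat 3 n)),
        (1 : ℝ) / (n : ℝ)
      ≤ ∑ n ∈ ((Finset.Icc 1 N).filter (fun n => Even (padicValNat 3 n))).image (fun m => 3 * m),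
        (1 : ℝ) / ((n : ℕ) : ℝ) := by
      apply Finset.sum_le_sum_of_subset_of_nonneg
      · intro n hn
        simp only [Finset.mem_filter, Finset.mem_Icc] at hn
        obtain ⟨⟨h1, h2⟩, h3⟩ := hn
        obtain ⟨m, rfl⟩ := three_dvd_of_odd n h3
        simp only [Finset.mem_image, Finset.mem_filter, Finset.mem_Icc]
        refine ⟨m, ⟨⟨by omega, by omega⟩, ?_⟩, rfl⟩
        rw [val_three_mul m (by omega), Nat.not_even_iff_odd] at h3
        by_contra hc
        rw [Nat.not_even_iff_odd] at hc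
        exact (Nat.not_even_iff_odd.mpr h3) hc.add_one
      · intro i _ _
        positivity
    refine h2.trans (le_of_eq ?_)
    rw [Finset.sum_image (by intro a _ b _ h; simpa using h)]
    unfold E
    rw [Finset.sum_div]
    apply Finset.sum_congr rfl
    intro n _
    push_cast
    rw [div_div, mul_comm]
  have h3 := Finset.sum_filter_add_sum_filter_not (Finset.Icc 1 N)
    (fun n => Even (padicValNat 3 n)) (fun n : ℕ => (1 : ℝ) / (n : ℝ))
  have h4 : E N + ∑ n ∈ (Finset.Icc 1 N).filter (fun n => ¬ Even (padicValNat 3 n)),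
      (1 : ℝ) / (n : ℝ) = H N := h3
  linarith

lemma H_three (N : ℕ) : H (3 * N) ≤ H N + 2 := by
  have h1 : H (3 * N) = H N + ∑ n ∈ Finset.Ioc N (3 * N), (1 : ℝ) / (n : ℝ) := by
    unfold H
    have : Finset.Icc 1 (3 * N) = Finset.Icc 1 N ∪ Finset.Ioc N (3 * N) := by
      ext x; simp only [Finset.mem_Icc, Finset.mem_union, Finset.mem_Ioc]; omega
    rw [this, Finset.sum_union]
    rw [Finset.disjoint_left]
    intro x; simp only [Finset.mem_Icc, Finset.mem_Ioc]; omega
  rw [h1]
  have h2 : ∑ n ∈ Finset.Ioc N (3 * N), (1 : ℝ) / (n : ℝ) ≤ 2 := by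
    rcases Nat.eq_zero_or_pos N with h0 | hpos
    · subst h0; simp
    · calc ∑ n ∈ Finset.Ioc N (3 * N), (1 : ℝ) / (n : ℝ)
          ≤ ∑ n ∈ Finset.Ioc N (3 * N), (1 : ℝ) / (N : ℝ) := by
            apply Finset.sum_le_sum
            intro i hi
            rw [Finset.mem_Ioc] at hi
            apply one_div_le_one_div_of_le
            · exact_mod_cast hpos
            · exact_mod_cast hi.1.le
        _ = 2 := by
            rw [Finset.sum_const, Nat.card_Ioc]
            have : 3 * N - N = 2 * N := by omega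
            rw [this]
            have : (N : ℝ) ≠ 0 := by positivity
            simp only [nsmul_eq_mul]
            push_cast
            field_simp
  linarith

lemma H_succ (N : ℕ) : H (N + 1) = H N + 1 / ((N : ℝ) + 1) := by
  unfold H
  rw [Finset.sum_Icc_succ_top (by omega)]
  push_cast
  rfl

lemma H_tendsto : Tendsto H atTop atTop := by
  have h := Real.tendsto_sum_range_one_div_nat_succ_atTop
  have h2 : H = fun n : ℕ => ∑ i ∈ Finset.range n, 1 / ((i : ℝ) + 1) := by
    funext n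
    induction n with
    | zero => simp [H]
    | succ n ih => rw [H_succ, Finset.sum_range_succ, ih]
  rw [h2]
  exact h

/-- Abel summation bound. -/
lemma sum_le_of_count (T : ℕ → Prop) [DecidablePred T] (c C : ℝ)
    (h : ∀ N : ℕ, (((Finset.Icc 1 N).filter T).card : ℝ) ≤ c * N + C) (N : ℕ) :
    ∑ n ∈ (Finset.Icc 1 N).filter T, (1 : ℝ) / (n : ℝ) ≤ c * H N + C := by
  set S : ℕ → ℝ := fun N => ∑ n ∈ (Finset.Icc 1 N).filter T, (1 : ℝ) / (n : ℝ) with hS
  set t : ℕ → ℝ := fun N => (((Finset.Icc 1 N).filter T).card : ℝ) with ht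
  have hstep : ∀ N : ℕ, S (N + 1) = S N + (t (N + 1) - t N) / ((N : ℝ) + 1) := by
    intro N
    have hI : Finset.Icc 1 (N + 1) = insert (N + 1) (Finset.Icc 1 N) := by
      ext x; simp only [Finset.mem_Icc, Finset.mem_insert]; omega
    by_cases hT : T (N + 1)
    · have h1 : (Finset.Icc 1 (N + 1)).filter T
          = insert (N + 1) ((Finset.Icc 1 N).filter T) := by
        rw [hI, Finset.filter_insert, if_pos hT]
      have hn : (N + 1) ∉ (Finset.Icc 1 N).filter T := by simp
      simp only [hS, ht]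
      rw [h1, Finset.sum_insert hn, Finset.card_insert_of_notMem hn]
      push_cast
      ring
    · have h1 : (Finset.Icc 1 (N + 1)).filter T = (Finset.Icc 1 N).filter T := by
        rw [hI, Finset.filter_insert, if_neg hT]
      simp only [hS, ht]
      rw [h1]
      simp
  have hB : ∀ N : ℕ, S N - t N / ((N : ℝ) + 1) ≤ c * (H (N + 1) - 1)
      + C * (1 - 1 / ((N : ℝ) + 1)) := by
    intro N
    induction N with
    | zero => simp [hS, ht, H]
    | succ N ih =>
      rw [hstep, H_succ (N + 1)]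
      have h1 := h (N + 1)
      have h2 : t (N + 1) ≤ c * ((N : ℝ) + 1) + C := by
        have := h (N + 1)
        push_cast at this
        exact this
      have hp1 : (0 : ℝ) < (N : ℝ) + 1 := by positivity
      have hp2 : (0 : ℝ) < (N : ℝ) + 1 + 1 := by positivity
      have h3 : t (N + 1) * (1 / ((N : ℝ) + 1) - 1 / ((N : ℝ) + 1 + 1))
          ≤ (c * ((N : ℝ) + 1) + C) * (1 / ((N : ℝ) + 1) - 1 / ((N : ℝ) + 1 + 1)) := by
        apply mul_le_mul_of_nonneg_right h2
        rw [sub_nonneg]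
        apply one_div_le_one_div_of_le hp1
        linarith
      have h4 : (c * ((N : ℝ) + 1) + C) * (1 / ((N : ℝ) + 1) - 1 / ((N : ℝ) + 1 + 1))
          = c * (1 / ((N : ℝ) + 1 + 1)) + C * (1 / ((N : ℝ) + 1) - 1 / ((N : ℝ) + 1 + 1)) := by
        field_simp
        ring
      have h5 : S N + (t (N + 1) - t N) / ((N : ℝ) + 1) - t (N + 1) / ((N : ℝ) + 1 + 1)
          = (S N - t N / ((N : ℝ) + 1))
            + t (N + 1) * (1 / ((N : ℝ) + 1) - 1 / ((N : ℝ) + 1 + 1)) := by
        field_simp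
        ring
      push_cast
      rw [h5]
      linarith
  have h1 := hB N
  have h2 : t N ≤ c * N + C := h N
  rw [H_succ] at h1
  have hp1 : (0 : ℝ) < (N : ℝ) + 1 := by positivity
  have h3 : t N / ((N : ℝ) + 1) ≤ (c * N + C) / ((N : ℝ) + 1) := by
    apply div_le_div_of_nonneg_right h2 hp1.le
  have h4 : (c * N + C) / ((N : ℝ) + 1) = c * (1 - 1 / ((N : ℝ) + 1)) + C * (1 / ((N : ℝ) + 1)) := by
    field_simp
    ring
  have h5 : S N ≤ c * H N + C := by
    rw [h4] at h3
    linarith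
  exact h5

/-- The weighted double count. -/
lemma E_le (A : Set ℕ) (hfree : ∀ n : ℕ, 0 < n → ¬ (n ∈ A ∧ 2 * n ∈ A ∧ 3 * n ∈ A))
    [DecidablePred (fun n : ℕ => n ∉ A)] (N : ℕ) :
    E N ≤ 3 * ∑ n ∈ (Finset.Icc 1 (3 * N)).filter (fun n => n ∉ A), (1 : ℝ) / (n : ℝ) := by
  classical
  set D : Finset ℕ := (Finset.Icc 1 N).filter (fun n => Even (padicValNat 3 n)) with hD
  set M : Finset ℕ := (Finset.Icc 1 (3 * N)).filter (fun n => n ∉ A) with hM
  set Me : Finset ℕ := M.filter (fun n => Even (padicValNat 3 n)) with hMe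
  set Mo : Finset ℕ := M.filter (fun n => ¬ Even (padicValNat 3 n)) with hMo
  have hmem : ∀ n ∈ D, 0 < n ∧ n ≤ N ∧ Even (padicValNat 3 n) := by
    intro n hn
    simp only [hD, Finset.mem_filter, Finset.mem_Icc] at hn
    exact ⟨by omega, hn.1.2, hn.2⟩
  have h1 : E N ≤ ∑ n ∈ D.filter (fun n => n ∉ A), (1 : ℝ) / (n : ℝ)
      + ∑ n ∈ D.filter (fun n => 2 * n ∉ A), (1 : ℝ) / (n : ℝ)
      + ∑ n ∈ D.filter (fun n => 3 * n ∉ A), (1 : ℝ) / (n : ℝ) := by
    have hE : E N = ∑ n ∈ D, (1 : ℝ) / (n : ℝ) := rfl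
    rw [hE, Finset.sum_filter (s := D) (p := fun n => n ∉ A),
      Finset.sum_filter (s := D) (p := fun n => 2 * n ∉ A),
      Finset.sum_filter (s := D) (p := fun n => 3 * n ∉ A), ← Finset.sum_add_distrib,
      ← Finset.sum_add_distrib]
    apply Finset.sum_le_sum
    intro n hn
    have hn' := hmem n hn
    have hpos : (0 : ℝ) ≤ 1 / (n : ℝ) := by positivity
    have hf := hfree n hn'.1
    by_cases ha : n ∈ A
    · by_cases hb : 2 * n ∈ A
      · have hc : 3 * n ∉ A := fun hc => hf ⟨ha, hb, hc⟩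
        simp [ha, hb, hc]
      · by_cases hc : 3 * n ∈ A
        · simp [ha, hb, hc]
        · simp [ha, hb, hc]
    · by_cases hb : 2 * n ∈ A <;> by_cases hc : 3 * n ∈ A <;> simp [ha, hb, hc]
  have h2 : ∑ n ∈ D.filter (fun n => n ∉ A), (1 : ℝ) / (n : ℝ) ≤ ∑ n ∈ Me, (1 : ℝ) / (n : ℝ) := by
    apply Finset.sum_le_sum_of_subset_of_nonneg
    · intro n hn
      rw [Finset.mem_filter] at hn
      have hn' := hmem n hn.1
      simp only [hMe, hM, Finset.mem_filter, Finset.mem_Icc]
      exact ⟨⟨⟨by omega, by omega⟩, hn.2⟩, hn'.2.2⟩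
    · intro i _ _
      positivity
  have h3 : ∑ n ∈ D.filter (fun n => 2 * n ∉ A), (1 : ℝ) / (n : ℝ)
      ≤ 2 * ∑ n ∈ Me, (1 : ℝ) / (n : ℝ) := by
    have h31 : ∑ n ∈ D.filter (fun n => 2 * n ∉ A), (1 : ℝ) / (n : ℝ)
        = 2 * ∑ n ∈ (D.filter (fun n => 2 * n ∉ A)).image (fun n => 2 * n),
          (1 : ℝ) / ((n : ℕ) : ℝ) := by
      rw [Finset.sum_image (by intro a _ b _ h; simpa using h), Finset.mul_sum]
      apply Finset.sum_congr rfl
      intro n hn
      rw [Finset.mem_filter] at hn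
      have hn' := hmem n hn.1
      have : (n : ℝ) ≠ 0 := by
        have := hn'.1
        positivity
      push_cast
      field_simp
    rw [h31]
    apply mul_le_mul_of_nonneg_left _ (by norm_num)
    apply Finset.sum_le_sum_of_subset_of_nonneg
    · intro m hm
      rw [Finset.mem_image] at hm
      obtain ⟨n, hn, rfl⟩ := hm
      rw [Finset.mem_filter] at hn
      have hn' := hmem n hn.1
      simp only [hMe, hM, Finset.mem_filter, Finset.mem_Icc]
      refine ⟨⟨⟨by omega, by omega⟩, hn.2⟩, ?_⟩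
      rw [val_two_mul n hn'.1]
      exact hn'.2.2
    · intro i _ _
      positivity
  have h4 : ∑ n ∈ D.filter (fun n => 3 * n ∉ A), (1 : ℝ) / (n : ℝ)
      ≤ 3 * ∑ n ∈ Mo, (1 : ℝ) / (n : ℝ) := by
    have h31 : ∑ n ∈ D.filter (fun n => 3 * n ∉ A), (1 : ℝ) / (n : ℝ)
        = 3 * ∑ n ∈ (D.filter (fun n => 3 * n ∉ A)).image (fun n => 3 * n),
          (1 : ℝ) / ((n : ℕ) : ℝ) := by
      rw [Finset.sum_image (by intro a _ b _ h; simpa using h), Finset.mul_sum]
      apply Finset.sum_congr rfl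
      intro n hn
      rw [Finset.mem_filter] at hn
      have hn' := hmem n hn.1
      have : (n : ℝ) ≠ 0 := by
        have := hn'.1
        positivity
      push_cast
      field_simp
    rw [h31]
    apply mul_le_mul_of_nonneg_left _ (by norm_num)
    apply Finset.sum_le_sum_of_subset_of_nonneg
    · intro m hm
      rw [Finset.mem_image] at hm
      obtain ⟨n, hn, rfl⟩ := hm
      rw [Finset.mem_filter] at hn
      have hn' := hmem n hn.1
      simp only [hMo, hM, Finset.mem_filter, Finset.mem_Icc]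
      refine ⟨⟨⟨by omega, by omega⟩, hn.2⟩, ?_⟩
      rw [val_three_mul n hn'.1, Nat.not_even_iff_odd]
      exact hn'.2.2.add_one
    · intro i _ _
      positivity
  have h5 : ∑ n ∈ Me, (1 : ℝ) / (n : ℝ) + ∑ n ∈ Mo, (1 : ℝ) / (n : ℝ)
      = ∑ n ∈ M, (1 : ℝ) / (n : ℝ) :=
    Finset.sum_filter_add_sum_filter_not M (fun n => Even (padicValNat 3 n))
      (fun n : ℕ => (1 : ℝ) / (n : ℝ))
  linarith

/-- Upper bound: a set with no triple `{n, 2n, 3n}` whose density exists has density at most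
`3/4`. -/
lemma upper (A : Set ℕ) (hfree : ∀ n : ℕ, 0 < n → ¬ (n ∈ A ∧ 2 * n ∈ A ∧ 3 * n ∈ A)) (d : ℝ)
    (hd : Tendsto (fun x : ℕ => ((A ∩ Set.Icc 1 x).ncard : ℝ) / (x : ℝ)) atTop (𝓝 d)) :
    d ≤ 3 / 4 := by
  classical
  by_contra hlt
  push Not at hlt
  -- choose `3/4 < e < d`
  obtain ⟨e, he1, he2⟩ := exists_between hlt
  have hev : ∀ᶠ x : ℕ in atTop, e < ((A ∩ Set.Icc 1 x).ncard : ℝ) / (x : ℝ) :=
    hd.eventually_const_lt he2
  obtain ⟨x0, hx0⟩ := Filter.eventually_atTop.mp hev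
  have hncard : ∀ x : ℕ, (A ∩ Set.Icc 1 x).ncard = ((Finset.Icc 1 x).filter (fun n => n ∈ A)).card := by
    intro x
    rw [← Set.ncard_coe_finset]
    congr 1
    ext n
    simp only [Set.mem_inter_iff, Set.mem_Icc, Finset.coe_filter, Finset.mem_Icc, Set.mem_ofPred_eq]
    exact and_comm
  have hcount : ∀ N : ℕ, (((Finset.Icc 1 N).filter (fun n => n ∉ A)).card : ℝ)
      ≤ (1 - e) * N + (x0 + |1 - e| * x0) := by
    intro N
    have hsum := Finset.card_filter_add_card_filter_not (s := Finset.Icc 1 N) (fun n => n ∈ A)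
    rw [Nat.card_Icc, Nat.add_sub_cancel] at hsum
    have hsumR : (((Finset.Icc 1 N).filter (fun n => n ∈ A)).card : ℝ)
        + (((Finset.Icc 1 N).filter (fun n => n ∉ A)).card : ℝ) = N := by exact_mod_cast hsum
    rcases lt_or_ge N x0 with hN | hN
    · have h1 : (((Finset.Icc 1 N).filter (fun n => n ∉ A)).card : ℝ) ≤ N := by
        have : (0 : ℝ) ≤ (((Finset.Icc 1 N).filter (fun n => n ∈ A)).card : ℝ) := by positivity
        linarith
      have h2 : (N : ℝ) ≤ x0 := by exact_mod_cast hN.le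
      have h3 : -(|1 - e| * x0) ≤ (1 - e) * N := by
        have : |(1 - e) * N| ≤ |1 - e| * x0 := by
          rw [abs_mul]
          apply mul_le_mul_of_nonneg_left _ (abs_nonneg _)
          rw [abs_of_nonneg (by positivity)]
          exact h2
        linarith [(abs_le.mp this).1]
      linarith
    · rcases Nat.eq_zero_or_pos N with h0 | hpos
      · subst h0
        simp
        positivity
      · have h1 := hx0 N hN
        rw [hncard, lt_div_iff₀ (by exact_mod_cast hpos)] at h1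
        have : (0 : ℝ) ≤ x0 + |1 - e| * x0 := by positivity
        linarith
  set C : ℝ := x0 + |1 - e| * x0 with hC
  have hmain : ∀ N : ℕ, 3 / 4 * H N ≤ 3 * ((1 - e) * H (3 * N) + C) := by
    intro N
    calc 3 / 4 * H N ≤ E N := H_le_E N
      _ ≤ 3 * ∑ n ∈ (Finset.Icc 1 (3 * N)).filter (fun n => n ∉ A), (1 : ℝ) / (n : ℝ) :=
        E_le A hfree N
      _ ≤ 3 * ((1 - e) * H (3 * N) + C) := by
        apply mul_le_mul_of_nonneg_left _ (by norm_num)
        exact sum_le_of_count (fun n => n ∉ A) (1 - e) C hcount (3 * N)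
  -- `H N ≤ K` for a constant: contradiction
  have hHmono : ∀ N : ℕ, H N ≤ H (3 * N) := by
    intro N
    unfold H
    apply Finset.sum_le_sum_of_subset_of_nonneg
    · apply Finset.Icc_subset_Icc_right
      omega
    · intro i _ _
      positivity
  have hb : ∀ N : ℕ, (3 * e - 9 / 4) * H N ≤ 3 * (|1 - e| * 2 + C) := by
    intro N
    have h1 := hmain N
    have h2 : (1 - e) * H (3 * N) ≤ (1 - e) * H N + |1 - e| * 2 := by
      have h3 : (1 - e) * (H (3 * N) - H N) ≤ |1 - e| * 2 := by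
        apply mul_le_mul (le_abs_self _) _ _ (abs_nonneg _)
        · linarith [H_three N]
        · linarith [hHmono N]
      linarith
    nlinarith
  have hpos : (0 : ℝ) < 3 * e - 9 / 4 := by linarith
  have hev2 := H_tendsto.eventually_gt_atTop (3 * (|1 - e| * 2 + C) / (3 * e - 9 / 4))
  obtain ⟨N, hN⟩ := hev2.exists
  rw [div_lt_iff₀ hpos] at hN
  linarith [hb N]

/-- Lower bound: the set of positive integers `n` with `v_3(n)` even has density `3/4`. -/
lemma lower : Tendsto
    (fun x : ℕ => ((({n : ℕ | 0 < n ∧ Even (padicValNat 3 n)} : Set ℕ) ∩ Set.Icc 1 x).ncard : ℝ)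
      / (x : ℝ)) atTop (𝓝 (3 / 4)) := by
  have hncard : ∀ x : ℕ, (({n : ℕ | 0 < n ∧ Even (padicValNat 3 n)} : Set ℕ) ∩ Set.Icc 1 x).ncard
      = evCount x := by
    intro x
    unfold evCount
    rw [← Set.ncard_coe_finset]
    congr 1
    ext n
    simp only [Set.mem_inter_iff, Set.mem_ofPred_eq, Set.mem_Icc, Finset.coe_filter,
      Finset.mem_Icc]
    constructor
    · rintro ⟨⟨h1, h2⟩, h3⟩
      exact ⟨h3, h2⟩
    · rintro ⟨h1, h2⟩
      exact ⟨⟨by omega, h2⟩, h1⟩
  simp only [hncard]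
  rw [tendsto_iff_norm_sub_tendsto_zero]
  have hlim : Tendsto (fun x : ℕ => 2 / Real.sqrt (x : ℝ)) atTop (𝓝 0) := by
    apply Tendsto.div_atTop tendsto_const_nhds
    exact Real.tendsto_sqrt_atTop.comp tendsto_natCast_atTop_atTop
  apply squeeze_zero' (Eventually.of_forall fun x => norm_nonneg _) _ hlim
  filter_upwards [eventually_gt_atTop 0] with x hx
  have hx' : (0 : ℝ) < x := by exact_mod_cast hx
  have hs : (0 : ℝ) < Real.sqrt x := Real.sqrt_pos.mpr hx'
  rw [Real.norm_eq_abs]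
  have h1 : (evCount x : ℝ) / x - 3 / 4 = ((evCount x : ℝ) - 3 / 4 * x) / x := by
    field_simp
  rw [h1, abs_div, abs_of_pos hx', div_le_div_iff₀ hx' hs]
  calc |(evCount x : ℝ) - 3 / 4 * x| * Real.sqrt x
      ≤ (2 * Real.sqrt x) * Real.sqrt x :=
        mul_le_mul_of_nonneg_right (evCount_err x) hs.le
    _ = 2 * x := by
        rw [mul_assoc, Real.mul_self_sqrt hx'.le]

/-- **Exact value of the maximal density**: the supremum of the densities of sets of positive
integers that contain no triple `{n, 2n, 3n}` and have a density is `3/4`, and it is attained. -/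
theorem result :
    IsGreatest {d : ℝ | ∃ A : Set ℕ, (∀ a ∈ A, 0 < a) ∧
      (∀ n : ℕ, 0 < n → ¬ (n ∈ A ∧ 2 * n ∈ A ∧ 3 * n ∈ A)) ∧
      Tendsto (fun x : ℕ => ((A ∩ Set.Icc 1 x).ncard : ℝ) / (x : ℝ)) atTop (𝓝 d)} (3 / 4) := by
  constructor
  · refine ⟨{n : ℕ | 0 < n ∧ Even (padicValNat 3 n)}, fun a ha => ha.1, ?_, lower⟩
    rintro n hn ⟨h1, _, h3⟩
    have h1' := h1.2
    have h3' := h3.2
    rw [val_three_mul n hn] at h3'
    exact (Nat.not_even_iff_odd.mpr h1'.add_one) h3'
  · rintro d ⟨A, _, hfree, hd⟩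
    exact upper A hfree d hd

end Pool.Agent.Results.MP_37c1b2_nt.ExactDensity
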